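import Mathlib
import Pool.Prelude.Def_H_e9e0c647

namespace Pool.Agent.MP_26a3fe_lc

/-- A coloured poset given explicitly: the elements are `0, ..., n - 1` where `n` is the length of
the list of colours (`true` is white, `false` is black), and the second component lists all pairs
`(x, y)` with `x < y` in the poset. -/
abbrev Inst : Type := List Bool × List (ℕ × ℕ)

/-- The listed pairs form a strict partial order on `0, ..., n - 1`. -/
def IsPoset (P : Inst) : Prop :=
  (∀ a ∈ P.2, a.1 < P.1.length ∧ a.2 < P.1.length) ∧ (∀ x, (x, x) ∉ P.2) ∧
    ∀ x y z, (x, y) ∈ P.2 → (y, z) ∈ P.2 → (x, z) ∈ P.2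

/-- There is no chain `x < y < z`. -/
def HeightLeTwo (P : Inst) : Prop := ∀ x y z, (x, y) ∈ P.2 → (y, z) ∉ P.2

/-- The player of colour `c` may delete `x` when the remaining elements are `S`:
`x` remains, has colour `c` and is maximal among the remaining elements. -/
def Legal (P : Inst) (c : Bool) (S : Finset ℕ) (x : ℕ) : Prop :=
  x ∈ S ∧ P.1[x]? = some c ∧ ∀ y ∈ S, (x, y) ∉ P.2

/-- `WinsSecond P c S`: with remaining elements `S` and the opponent of `c` to move, the player of
colour `c` has a winning strategy (a player without a legal move loses). -/
inductive WinsSecond (P : Inst) (c : Bool) : Finset ℕ → Prop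
  | intro (S : Finset ℕ) (reply : ℕ → ℕ) :
      (∀ x, Legal P (!c) S x → Legal P c (S.erase x) (reply x)) →
      (∀ x, Legal P (!c) S x → WinsSecond P c ((S.erase x).erase (reply x))) →
      WinsSecond P c S

open Classical in
/-- The winner under optimal play when the player of colour `c` moves first on the whole poset:
the opponent if the opponent wins moving second, and `c` otherwise. -/
noncomputable def winner (P : Inst) (c : Bool) : Bool :=
  if WinsSecond P (!c) (Finset.range P.1.length) then !c else c

open Classical in
/-- The language of the code words of coloured posets of height at most two whose outcome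
(winner when White moves first, winner when Black moves first) has the property `Q`. -/
noncomputable def outcomeLang (Q : Bool × Bool → Prop) : List Bool → Bool := fun w =>
  decide (∃ P : Inst, N487b59b3.bitEncode P = w ∧ IsPoset P ∧ HeightLeTwo P ∧
    Q (winner P true, winner P false))

end Pool.Agent.MP_26a3fe_lc
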