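import Mathlib
import Pool.Agent.MP_26a3fe_lc.Defs

namespace Pool.Agent.MP_26a3fe_lc

open Finset

/-- The pomax game on `P` equals zero: whoever moves second wins. -/
def PomaxZero (P : Inst) : Prop :=
  WinsSecond P true (Finset.range P.1.length) ∧ WinsSecond P false (Finset.range P.1.length)

/-- having one more maximal element of the own colour does not hurt -/
theorem second_of_erase (P : Inst) (c : Bool) : ∀ (n : ℕ) (S : Finset ℕ), S.card = n →
    ∀ x, Legal P c S x → WinsSecond P c (S.erase x) → WinsSecond P c S := by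
  intro n
  induction n using Nat.strong_induction_on with
  | _ n ih =>
    intro S hS x hx h
    cases h with
    | intro _ r a b =>
      have ne : ∀ y, Legal P (!c) S y → y ≠ x := by
        rintro y hy rfl
        have := hy.2.1.symm.trans hx.2.1
        simp at this
      have leg : ∀ y, Legal P (!c) S y → Legal P (!c) (S.erase x) y := fun y hy =>
        ⟨mem_erase.2 ⟨ne y hy, hy.1⟩, hy.2.1, fun z hz => hy.2.2 z (mem_of_mem_erase hz)⟩
      refine WinsSecond.intro S (fun _ => x) (fun y hy => ⟨mem_erase.2 ⟨(ne y hy).symm, hx.1⟩,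
        hx.2.1, fun z hz => hx.2.2 z (mem_of_mem_erase hz)⟩) fun y hy => ?_
      rw [erase_right_comm]
      refine ih _ ?_ _ rfl (r y) (a y (leg y hy)) (b y (leg y hy))
      rw [← hS]
      exact lt_of_le_of_lt card_erase_le (card_erase_lt_of_mem hx.1)

/-- exchanging the colours -/
def swap (P : Inst) : Inst := (P.1.map fun b => !b, P.2)

theorem legal_swap (P : Inst) (c : Bool) (S : Finset ℕ) (x : ℕ) :
    Legal (swap P) (!c) S x ↔ Legal P c S x := by
  unfold Legal swap
  refine and_congr_right fun _ => and_congr_left fun _ => ?_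
  simp only [List.getElem?_map]
  cases P.1[x]? with
  | none => simp
  | some b => cases b <;> cases c <;> simp

theorem WinsSecond.swap {P : Inst} {c : Bool} {S : Finset ℕ} (h : WinsSecond P c S) :
    WinsSecond (swap P) (!c) S := by
  induction h with
  | intro S r a _ ih =>
    exact WinsSecond.intro S r
      (fun x hx => (legal_swap P c _ _).2 (a x ((legal_swap P (!c) S x).1 hx)))
      fun x hx => ih x ((legal_swap P (!c) S x).1 hx)

theorem swap_swap (P : Inst) : swap (swap P) = P := by
  simp [swap, Function.comp_def]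

theorem winsSecond_swap (P : Inst) (c : Bool) (S : Finset ℕ) :
    WinsSecond (swap P) (!c) S ↔ WinsSecond P c S :=
  ⟨fun h => by simpa [swap_swap] using h.swap, WinsSecond.swap⟩

theorem not_both (P : Inst) (c : Bool) : ∀ (n : ℕ) (S : Finset ℕ), S.card = n →
    WinsSecond P (!c) S → ∀ x, Legal P c S x → ¬ WinsSecond P c (S.erase x) := by
  intro n
  induction n using Nat.strong_induction_on with
  | _ n ih =>
    intro S hS h1 x hx h2
    cases h1 with
    | intro _ r1 a1 b1 =>
      cases h2 with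
      | intro _ r2 a2 b2 =>
        have hx' : Legal P (!!c) S x := by simpa using hx
        have l1 := a1 x hx'
        have l2 := a2 _ l1
        refine ih _ ?_ _ rfl (b1 x hx') _ l2 (b2 _ l1)
        rw [← hS]
        exact lt_of_le_of_lt (card_erase_le) (card_erase_lt_of_mem hx.1)

/-- sign of an element for the player `c` -/
def sgn (P : Inst) (c : Bool) (z : ℕ) : ℤ := if P.1[z]? = some c then 1 else -1

/-- all elements above `b` lie in `R` -/
def Rel (P : Inst) (R : Finset ℕ) (b : ℕ) : Prop := ∀ y, (b, y) ∈ P.2 → y ∈ R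

open Classical in
/-- the potential -/
noncomputable def pot (P : Inst) (nt : ℕ) (c : Bool) (R : Finset ℕ) : ℤ :=
  ∑ z ∈ R, sgn P c z + ∑ b ∈ (Ico nt P.1.length).filter (Rel P R), sgn P c b

/-- balance of removed elements -/
def bal (P : Inst) (c : Bool) (S : Finset ℕ) : ℤ := ∑ z ∈ range P.1.length \ S, sgn P c z

/-- invariant of positions -/
def Inv (P : Inst) (nt : ℕ) (S : Finset ℕ) : Prop :=
  S ⊆ range P.1.length ∧ ∀ b, nt ≤ b → b < P.1.length → b ∉ S → Rel P (range nt \ S) b

section

variable {P : Inst} {nt : ℕ} (hnt : nt ≤ P.1.length) (hP : ∀ a ∈ P.2, nt ≤ a.1 ∧ a.2 < nt)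

include hP in
theorem inv_erase {c : Bool} {S : Finset ℕ} {x : ℕ} (h : Inv P nt S) (hx : Legal P c S x) :
    Inv P nt (S.erase x) := by
  refine ⟨(erase_subset _ _).trans h.1, fun b h1 h2 h3 y hy => ?_⟩
  have hy' := (hP _ hy).2
  simp only [mem_sdiff, mem_range, mem_erase, not_and] at h3 ⊢
  refine ⟨hy', fun _ hyS => ?_⟩
  by_cases hb : b = x
  · subst hb
    exact hx.2.2 y hyS hy
  · have := h.2 b h1 h2 (h3 hb) y hy
    simp only [mem_sdiff] at this
    exact this.2 hyS

theorem bal_erase {c d : Bool} {S : Finset ℕ} {x : ℕ} (h : Inv P nt S) (hx : Legal P d S x) :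
    bal P c (S.erase x) = bal P c S + if d = c then 1 else -1 := by
  have hxr : x ∈ range P.1.length := h.1 hx.1
  have : range P.1.length \ S.erase x = insert x (range P.1.length \ S) := by
    ext z
    simp only [mem_sdiff, mem_erase, mem_insert]
    constructor
    · rintro ⟨h1, h2⟩
      by_cases hz : z = x
      · exact Or.inl hz
      · exact Or.inr ⟨h1, fun h3 => h2 ⟨hz, h3⟩⟩
    · rintro (rfl | ⟨h1, h2⟩)
      · exact ⟨hxr, fun h => h.1 rfl⟩
      · exact ⟨h1, fun h => h2 h.2⟩
  rw [bal, this, sum_insert (by simp [hx.1]), add_comm]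
  congr 1
  simp only [sgn, hx.2.1, Option.some.injEq]

theorem removed_erase_top {S : Finset ℕ} {x : ℕ} (hx : x < nt) :
    range nt \ S.erase x = insert x (range nt \ S) := by
  ext z
  simp only [mem_sdiff, mem_erase, mem_insert, mem_range]
  constructor
  · rintro ⟨h1, h2⟩
    by_cases hz : z = x
    · exact Or.inl hz
    · exact Or.inr ⟨h1, fun h3 => h2 ⟨hz, h3⟩⟩
  · rintro (rfl | ⟨h1, h2⟩)
    · exact ⟨hx, fun h => h.1 rfl⟩
    · exact ⟨h1, fun h => h2 h.2⟩

theorem removed_erase_bot {S : Finset ℕ} {x : ℕ} (hx : nt ≤ x) :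
    range nt \ S.erase x = range nt \ S := by
  ext z
  simp only [mem_sdiff, mem_erase, mem_range]
  constructor
  · rintro ⟨h1, h2⟩
    exact ⟨h1, fun h3 => h2 ⟨by omega, h3⟩⟩
  · rintro ⟨h1, h2⟩
    exact ⟨h1, fun h => h2 h.2⟩

include hnt hP in
theorem exists_free {c : Bool} {S : Finset ℕ} (h : Inv P nt S)
    (hlt : bal P c S < pot P nt c (range nt \ S)) : ∃ x, nt ≤ x ∧ Legal P c S x := by
  classical
  by_contra hcon
  push Not at hcon
  apply absurd hlt
  rw [not_lt, pot, bal]
  have e1 : range P.1.length \ S = (range nt \ S) ∪ (Ico nt P.1.length \ S) := by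
    ext z
    simp only [mem_sdiff, mem_range, mem_union, mem_Ico]
    constructor
    · rintro ⟨h1, h2⟩
      by_cases hz : z < nt
      · exact Or.inl ⟨hz, h2⟩
      · exact Or.inr ⟨⟨by omega, h1⟩, h2⟩
    · rintro (⟨h1, h2⟩ | ⟨h1, h2⟩)
      · exact ⟨by omega, h2⟩
      · exact ⟨h1.2, h2⟩
  have d1 : Disjoint (range nt \ S) (Ico nt P.1.length \ S) := by
    rw [disjoint_left]
    intro z h1 h2
    simp only [mem_sdiff, mem_range, mem_Ico] at h1 h2
    omega
  rw [e1, sum_union d1]
  refine add_le_add le_rfl ?_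
  have hsub : Ico nt P.1.length \ S ⊆ (Ico nt P.1.length).filter (Rel P (range nt \ S)) := by
    intro b hb
    simp only [mem_sdiff, mem_Ico, mem_filter] at hb ⊢
    exact ⟨hb.1, h.2 b hb.1.1 hb.1.2 hb.2⟩
  rw [← sum_sdiff hsub]
  have : ∑ x ∈ (Ico nt P.1.length).filter (Rel P (range nt \ S)) \ (Ico nt P.1.length \ S),
      sgn P c x ≤ 0 := by
    apply sum_nonpos
    intro b hb
    simp only [mem_sdiff, mem_Ico, mem_filter, not_and, not_not] at hb
    have hbS := hb.2 hb.1.1
    unfold sgn
    split_ifs with hc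
    · exfalso
      refine hcon b hb.1.1.1 ⟨hbS, hc, fun y hy hy' => ?_⟩
      have := hb.1.2 y hy'
      simp only [mem_sdiff] at this
      exact this.2 hy
    · norm_num
  linarith

variable {c : Bool} {t : ℤ} {W : Finset ℕ → Prop}
  (h1 : ∀ R y, W R → y < nt → y ∉ R → P.1[y]? = some (!c) → W (insert y R))
  (h2 : ∀ R, W R → R ⊆ range nt → pot P nt c R ≤ t →
    ∃ x, x < nt ∧ x ∉ R ∧ P.1[x]? = some c ∧ W (insert x R))

include hnt hP h2 in
theorem strategy_move {S : Finset ℕ} (h : Inv P nt S) (hW : W (range nt \ S))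
    (hb : bal P c S = t) : ∃ x, Legal P c S x ∧ W (range nt \ S.erase x) := by
  by_cases hle : pot P nt c (range nt \ S) ≤ t
  · obtain ⟨x, a1, a2, a3, a4⟩ := h2 _ hW sdiff_subset hle
    refine ⟨x, ⟨?_, a3, fun y _ hy => ?_⟩, ?_⟩
    · by_contra hx
      exact a2 (by simp [a1, hx])
    · have := (hP _ hy).1
      simp only at this
      omega
    · rw [removed_erase_top a1]; exact a4
  · obtain ⟨x, a1, a2⟩ := exists_free hnt hP (c := c) h (by omega)
    exact ⟨x, a2, by rw [removed_erase_bot a1]; exact hW⟩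

include hnt hP h1 h2 in
theorem strategy_second : ∀ (n : ℕ) (S : Finset ℕ), S.card = n → Inv P nt S →
    W (range nt \ S) → bal P c S = t + 1 → WinsSecond P c S := by
  intro n
  induction n using Nat.strong_induction_on with
  | _ n ih =>
    intro S hS h hW hb
    have key : ∀ x, Legal P (!c) S x → ∃ y, Legal P c (S.erase x) y ∧
        WinsSecond P c ((S.erase x).erase y) := by
      intro x hx
      have i1 := inv_erase hP h hx
      have b1 : bal P c (S.erase x) = t := by
        rw [bal_erase h hx, hb]; cases c <;> simp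
      have w1 : W (range nt \ S.erase x) := by
        by_cases hx' : x < nt
        · rw [removed_erase_top hx']
          exact h1 _ _ hW hx' (by simp [hx.1]) hx.2.1
        · rw [removed_erase_bot (by omega)]; exact hW
      obtain ⟨y, a1, a2⟩ := strategy_move hnt hP h2 i1 w1 b1
      refine ⟨y, a1, ih _ ?_ _ rfl (inv_erase hP i1 a1) a2 ?_⟩
      · rw [← hS]
        exact lt_of_le_of_lt (card_erase_le) (card_erase_lt_of_mem hx.1)
      · rw [bal_erase i1 a1, b1]; simp
    choose! reply hr using key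
    exact WinsSecond.intro S reply (fun x hx => (hr x hx).1) (fun x hx => (hr x hx).2)

theorem inv_full : Inv P nt (range P.1.length) :=
  ⟨subset_rfl, fun b _ h2 h3 => absurd (mem_range.mpr h2) h3⟩

include hnt in
theorem removed_full : range nt \ range P.1.length = ∅ := by
  rw [sdiff_eq_empty_iff_subset]
  exact range_subset_range.mpr hnt

include hnt hP h1 in
theorem wins_second_of (h2 : ∀ R, W R → R ⊆ range nt → pot P nt c R ≤ -1 →
    ∃ x, x < nt ∧ x ∉ R ∧ P.1[x]? = some c ∧ W (insert x R)) (h0 : W ∅) :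
    WinsSecond P c (range P.1.length) :=
  strategy_second hnt hP h1 h2 _ _ rfl inv_full (by rw [removed_full hnt]; exact h0)
    (by simp [bal])

include hnt hP h1 in
theorem wins_first_of (h2 : ∀ R, W R → R ⊆ range nt → pot P nt c R ≤ 0 →
    ∃ x, x < nt ∧ x ∉ R ∧ P.1[x]? = some c ∧ W (insert x R)) (h0 : W ∅) :
    ¬ WinsSecond P (!c) (range P.1.length) := by
  intro h
  obtain ⟨x, a1, a2⟩ := strategy_move hnt hP h2 inv_full (by rw [removed_full hnt]; exact h0)
    (by simp [bal])
  refine not_both P c _ _ rfl h x a1 ?_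
  refine strategy_second hnt hP h1 h2 _ _ rfl (inv_erase hP inv_full a1) a2 ?_
  rw [bal_erase (nt := nt) inv_full a1]
  simp [bal]

end

/-- the poset with tops coloured by `tc` and bottoms `bs` (colour, list of elements above) -/
def mkInst (tc : List Bool) (bs : List (Bool × List ℕ)) : Inst :=
  (tc ++ bs.map Prod.fst,
    bs.zipIdx.flatMap fun bi => bi.1.2.map fun y => (tc.length + bi.2, y))

theorem mem_mkInst {tc : List Bool} {bs : List (Bool × List ℕ)} {x y : ℕ} :
    (x, y) ∈ (mkInst tc bs).2 ↔ ∃ i, ∃ h : i < bs.length, x = tc.length + i ∧ y ∈ bs[i].2 := by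
  simp only [mkInst, List.mem_flatMap, List.mem_map, Prod.mk.injEq]
  constructor
  · rintro ⟨⟨b, i⟩, h1, z, h2, h3, rfl⟩
    rw [List.mem_zipIdx_iff_getElem?] at h1
    simp only at h1 h2 h3
    obtain ⟨h4, h5⟩ := List.getElem?_eq_some_iff.mp h1
    exact ⟨i, h4, h3.symm, by rw [h5]; exact h2⟩
  · rintro ⟨i, h, rfl, h2⟩
    refine ⟨(bs[i], i), ?_, y, h2, rfl, rfl⟩
    rw [List.mem_zipIdx_iff_getElem?]
    simp

theorem length_mkInst (tc : List Bool) (bs : List (Bool × List ℕ)) :
    (mkInst tc bs).1.length = tc.length + bs.length := by simp [mkInst]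

theorem mkInst_two {tc : List Bool} {bs : List (Bool × List ℕ)}
    (h : ∀ b ∈ bs, ∀ y ∈ b.2, y < tc.length) :
    ∀ a ∈ (mkInst tc bs).2, tc.length ≤ a.1 ∧ a.2 < tc.length := by
  rintro ⟨x, y⟩ ha
  obtain ⟨i, hi, rfl, hy⟩ := mem_mkInst.mp ha
  exact ⟨by simp, h _ (List.getElem_mem hi) y hy⟩

theorem mkInst_valid {tc : List Bool} {bs : List (Bool × List ℕ)}
    (h : ∀ b ∈ bs, ∀ y ∈ b.2, y < tc.length) :
    IsPoset (mkInst tc bs) ∧ HeightLeTwo (mkInst tc bs) := by
  have h2 := mkInst_two h
  have h3 : HeightLeTwo (mkInst tc bs) := by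
    intro x y z a1 a2
    have b1 := (h2 _ a1).2
    have b2 := (h2 _ a2).1
    simp only at b1 b2
    omega
  refine ⟨⟨?_, fun x hx => h3 x x x hx hx, fun x y z a1 a2 => absurd a2 (h3 x y z a1)⟩, h3⟩
  rintro ⟨x, y⟩ ha
  have b1 := (h2 _ ha).2
  obtain ⟨i, hi, rfl, hy⟩ := mem_mkInst.mp ha
  rw [length_mkInst]
  simp only at b1 ⊢
  omega

/-- total sign of the released bottoms of a list -/
def wsum (c : Bool) (R : Finset ℕ) (bs : List (Bool × List ℕ)) : ℤ :=
  (bs.map fun b => if ∀ y ∈ b.2, y ∈ R then (if b.1 = c then (1 : ℤ) else -1) else 0).sum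

theorem pot_mkInst (tc : List Bool) (bs : List (Bool × List ℕ)) (c : Bool) (R : Finset ℕ)
    (hR : R ⊆ range tc.length) :
    pot (mkInst tc bs) tc.length c R =
      ∑ z ∈ R, (if tc[z]? = some c then (1 : ℤ) else -1) + wsum c R bs := by
  classical
  unfold pot
  congr 1
  · refine sum_congr rfl fun z hz => ?_
    have := mem_range.mp (hR hz)
    simp only [sgn, mkInst, List.getElem?_append_left this]
  · rw [sum_filter, length_mkInst, sum_Ico_eq_sum_range, Nat.add_sub_cancel_left, wsum,
      ← Fin.sum_univ_fun_getElem, Finset.sum_range]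
    refine sum_congr rfl fun i _ => ?_
    have e1 : Rel (mkInst tc bs) R (tc.length + i) ↔ ∀ y ∈ bs[i.1].2, y ∈ R := by
      unfold Rel
      simp only [mem_mkInst]
      constructor
      · intro h y hy
        exact h y ⟨i, i.2, rfl, hy⟩
      · rintro h y ⟨j, hj, e, hy⟩
        have : j = i := by omega
        subst this
        exact h y hy
    have e2 : sgn (mkInst tc bs) c (tc.length + i) = if bs[i.1].1 = c then 1 else -1 := by
      simp [sgn, mkInst, List.getElem?_append_right]
    simp only [e1, e2]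

theorem wsum_append (c : Bool) (R : Finset ℕ) (l₁ l₂ : List (Bool × List ℕ)) :
    wsum c R (l₁ ++ l₂) = wsum c R l₁ + wsum c R l₂ := by simp [wsum]

theorem wsum_flatMap {α : Type} (c : Bool) (R : Finset ℕ) (l : List α)
    (f : α → List (Bool × List ℕ)) :
    wsum c R (l.flatMap f) = (l.map fun a => wsum c R (f a)).sum := by
  induction l with
  | nil => simp [wsum]
  | cons a l ih => simp [List.flatMap_cons, wsum_append, ih]

end Pool.Agent.MP_26a3fe_lc
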