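import Pool.Agent.MP_26a3fe_lc.Red
import Pool.Agent.Lib.CxPspace.Hard

namespace Pool.Agent.MP_26a3fe_lc

open Pool.Agent.Lib.Cx Pool.Agent.Lib.CxPspace

theorem owner_pt : PT owner := by unfold owner; fun_prop

theorem stageBots_pt : PT stageBots := by
  have := owner_pt
  unfold stageBots; fun_prop

theorem red_pt : PT (fun z : List Bool × Cnf => red z.1 z.2) := by
  have h0 := owner_pt
  have h1 := stageBots_pt
  have h2 : PT (fun z : List Bool × List (ℕ × Bool) => clauseBot z.1 z.2) := by
    unfold clauseBot stage; fun_prop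
  have h3 : PT (fun z : List Bool => gad (2 * z.length)) := by unfold gad; fun_prop
  have h4 : PT (fun z : List Bool × Cnf => bots z.1 z.2) := by
    unfold bots
    refine PT.append (PT.flatMap (h3.comp' (by fun_prop)) (by fun_prop)) (PT.map ?_ (by fun_prop))
    exact h2.comp' (f := fun z : (List Bool × Cnf) × List (ℕ × Bool) => (z.1.1, z.2)) (by fun_prop)
  have h5 : PT (fun z : List Bool => topColors (2 * z.length)) := by unfold topColors; fun_prop
  have h6 : PT (fun z : List Bool × List (Bool × List ℕ) => mkInst z.1 z.2) := by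
    unfold mkInst; fun_prop
  exact h6.comp' (f := fun z : List Bool × Cnf => (topColors (2 * z.1.length), bots z.1 z.2))
    (PT.prodMk (h5.comp' (by fun_prop)) h4)

theorem compl_mem {L : List Bool → Bool} (hL : L ∈ PSPACE) : (fun x => !L x) ∈ PSPACE := by
  obtain ⟨⟨⟨tm, ia, oa⟩, hp⟩, p, hsp⟩ := hL
  refine ⟨⟨⟨tm, ia, oa.trans (Function.Involutive.toPerm _ Bool.not_not)⟩, fun a => ?_⟩, p, hsp⟩
  have h := hp a
  have e : ∀ b : Bool, (N487b59b3.bitEncode b : List Bool) = [b] := fun _ => rfl
  simp only [e, List.map_cons, List.map_nil] at h ⊢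
  convert h using 3
  simp [Function.Involutive.toPerm]

/-- for each colour `c`, reduction to instances with outcome zero or won by `c` -/
theorem pomax_hard {L : List Bool → Bool} (hL : L ∈ PSPACE) (c : Bool) :
    ∃ f : List Bool → Inst, PT f ∧ ∀ x, IsPoset (f x) ∧ HeightLeTwo (f x) ∧
      (winner (f x) true, winner (f x) false) = if L x = true then (false, true) else (c, c) := by
  obtain ⟨g, hg, hq⟩ := qbf_hard hL
  have key : ∀ x, L x = true ↔ WinsSecond (red (g x).1 (g x).2) true
      (Finset.range (red (g x).1 (g x).2).1.length) := fun x =>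
    ((hq x).trans (red_correct _ _)).trans ⟨fun h => h.1, fun h => ⟨h, red_black _ _⟩⟩
  have hf : PT fun x => red (g x).1 (g x).2 := red_pt.comp' hg
  cases c with
  | false =>
    refine ⟨fun x => red (g x).1 (g x).2, hf, fun x => ⟨(red_valid _ _).1, (red_valid _ _).2, ?_⟩⟩
    have h1 := red_black (g x).1 (g x).2
    by_cases h : L x = true
    · simp [winner, h, h1, (key x).1 h]
    · simp [winner, h, h1, mt (key x).2 h]
  | true =>
    have hs : PT swap := by unfold swap; fun_prop
    refine ⟨fun x => swap (red (g x).1 (g x).2), hs.comp' hf, fun x => ⟨?_, (red_valid _ _).2, ?_⟩⟩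
    · have := (red_valid (g x).1 (g x).2).1
      simpa [IsPoset, swap] using this
    · have e : (swap (red (g x).1 (g x).2)).1.length = (red (g x).1 (g x).2).1.length := by
        simp [swap]
      have h1 := (winsSecond_swap _ _ _).2 (red_black (g x).1 (g x).2)
      have h2 := (key x).trans (winsSecond_swap _ _ _).symm
      simp only [Bool.not_false, Bool.not_true] at h1 h2
      by_cases h : L x = true
      · simp [winner, e, h, h1, h2.1 h]
      · simp [winner, e, h, h1, mt h2.2 h]

end Pool.Agent.MP_26a3fe_lc
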