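import Pool.Agent.MP_26a3fe_lc.Hard
import Pool.Agent.Lib.CxPspace.Member

namespace Pool.Agent.MP_26a3fe_lc

open Pool.Agent.Lib.Cx Pool.Agent.Lib.CxPspace

/-- positions: wrapper flag, poset, player to move, remaining elements -/
abbrev Pos : Type := Bool × Inst × Bool × List ℕ

/-- moves -/
def moves (a : Pos) : List Pos :=
  if a.1 = true then [(false, a.2)] else
    (a.2.2.2.filter fun x => decide (a.2.1.1[x]? = some a.2.2.1 ∧ ∀ y ∈ a.2.2.2, (x, y) ∉ a.2.1.2)).map
      fun x => (false, a.2.1, !a.2.2.1, a.2.2.2.filter fun y => decide (y ≠ x))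

/-- rank -/
def rk (a : Pos) : ℕ := a.2.2.2.length + if a.1 = true then 1 else 0

theorem rk_lt (a : Pos) : ∀ b ∈ moves a, rk b < rk a := by
  intro b hb
  unfold moves at hb
  split_ifs at hb with h
  · simp only [List.mem_singleton] at hb
    subst hb
    simp [rk, h]
  · simp only [List.mem_map, List.mem_filter] at hb
    obtain ⟨x, ⟨hx, _⟩, rfl⟩ := hb
    simp only [rk, h, Bool.false_eq_true, if_false, add_zero]
    exact List.length_filter_lt_length_iff_exists.mpr ⟨x, hx, by simp⟩

/-- value of a position -/
def win (a : Pos) : Bool := (moves a).attach.any fun b => !win b.1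
termination_by rk a
decreasing_by exact rk_lt a b.1 b.2

theorem win_eq (a : Pos) : win a = (moves a).any fun b => !win b := by
  rw [win, Bool.eq_iff_iff]
  simp

theorem toFinset_filter_ne (S : List ℕ) (x : ℕ) :
    (S.filter fun y => decide (y ≠ x)).toFinset = S.toFinset.erase x := by
  ext y; simp [and_comm]

theorem win_iff (P : Inst) (c : Bool) (S : List ℕ) : win (false, P, c, S) = true ↔
    ∃ x, Legal P c S.toFinset x ∧ win (false, P, !c, S.filter fun y => decide (y ≠ x)) = false := by
  rw [win_eq]
  simp [moves, Legal, and_assoc]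

theorem winsSecond_iff (P : Inst) (c : Bool) : ∀ (n : ℕ) (S : List ℕ), S.length = n →
    (WinsSecond P c S.toFinset ↔ win (false, P, !c, S) = false) := by
  intro n
  induction n using Nat.strong_induction_on with
  | _ n ih =>
    intro S hS
    have hlt : ∀ x y, x ∈ S → ((S.filter fun z => decide (z ≠ x)).filter
        fun z => decide (z ≠ y)).length < n := by
      intro x y hx
      rw [← hS]
      exact lt_of_le_of_lt (List.length_filter_le _ _)
        (List.length_filter_lt_length_iff_exists.mpr ⟨x, hx, by simp⟩)
    rw [← Bool.not_eq_true, win_iff]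
    push Not
    simp only [Bool.not_not, ne_eq, Bool.not_eq_false, win_iff, toFinset_filter_ne]
    constructor
    · intro h x hx
      generalize hT : S.toFinset = T at h hx
      cases h with
      | intro _ r a b =>
        subst hT
        refine ⟨r x, a x hx, ?_⟩
        rw [← ih _ (hlt x (r x) (by simpa using hx.1)) _ rfl, toFinset_filter_ne,
          toFinset_filter_ne]
        exact b x hx
    · intro h
      choose! r hr using h
      refine WinsSecond.intro _ r (fun x hx => (hr x hx).1) fun x hx => ?_
      have := (hr x hx).2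
      rw [← ih _ (hlt x (r x) (by simpa using hx.1)) _ rfl, toFinset_filter_ne,
        toFinset_filter_ne] at this
      exact this

theorem moves_pt : PT moves := by unfold moves; fun_prop

theorem valid_pp : PP (fun P : Inst => IsPoset P ∧ HeightLeTwo P) := by
  have : PP (fun P : Inst => ((∀ a ∈ P.2, a.1 < P.1.length ∧ a.2 < P.1.length) ∧
      (∀ a ∈ P.2, a.1 ≠ a.2) ∧ ∀ a ∈ P.2, ∀ b ∈ P.2, a.2 = b.1 → (a.1, b.2) ∈ P.2) ∧
      ∀ a ∈ P.2, ∀ b ∈ P.2, a.2 ≠ b.1) := by fun_prop
  refine this.of_iff fun P => ?_
  unfold IsPoset HeightLeTwo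
  refine and_congr (and_congr_right fun _ => and_congr ?_ ?_) ?_
  · exact ⟨fun h a ha e => h a.1 (by rw [show (a.1, a.1) = a from Prod.ext rfl e]; exact ha),
      fun h x hx => h _ hx rfl⟩
  · exact ⟨fun h a ha b hb e => h a.1 a.2 b.2 ha (by rw [e]; exact hb),
      fun h x y z h1 h2 => h _ h1 _ h2 rfl⟩
  · exact ⟨fun h a ha b hb e => h a.1 a.2 b.2 ha (by rw [e]; exact hb),
      fun h x y z h1 h2 => h _ h1 _ h2 rfl⟩

theorem winner_eq (P : Inst) (c : Bool) :
    winner P c = if win (false, P, c, List.range P.1.length) = true then c else !c := by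
  have e := winsSecond_iff P (!c) _ (List.range P.1.length) rfl
  simp only [List.toFinset_range, Bool.not_not] at e
  unfold winner
  by_cases h : win (false, P, c, List.range P.1.length) = true
  · rw [if_pos h, if_neg (by rw [e, h]; simp)]
  · rw [if_neg h, if_pos (e.2 (by simpa using h))]

theorem not_first (P : Inst) : (winner P true, winner P false) ≠ (true, false) := by
  intro h
  simp only [Prod.mk.injEq] at h
  have h1 : win (false, P, true, List.range P.1.length) = true := by
    have := h.1
    rw [winner_eq] at this
    by_contra hc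
    simp [hc] at this
  obtain ⟨x, hx, h2⟩ := (win_iff P true _).1 h1
  have h3 := (winsSecond_iff P true _ _ rfl).2 h2
  rw [toFinset_filter_ne] at h3
  have h4 := second_of_erase P true _ _ rfl x hx h3
  rw [List.toFinset_range] at h4
  have h5 := h.2
  simp [winner, h4] at h5

theorem pomax_mem (o : Bool × Bool) (v : Bool) :
    outcomeLang (fun u => decide (u = o) = v) ∈ PSPACE := by
  classical
  obtain ⟨d, hd, he⟩ := (inferInstance : Dec Inst).dec
  let start : List Bool → List Pos := fun x => (d x).elim [] fun P =>
    [(!o.1, P, true, List.range P.1.length), (o.2, P, false, List.range P.1.length)]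
  have hs : PT start := by simp only [start]; fun_prop
  have hv := valid_pp
  let post : List Bool × Bool → Bool := fun z => (d z.1).elim false fun P =>
    decide (enc P = z.1 ∧ (IsPoset P ∧ HeightLeTwo P)) && decide ((!z.2) = v)
  have hp : PT post := by
    simp only [post]
    refine PT.optionElim (by fun_prop) (by fun_prop) (PT.and (PT.decide (PP.and (by fun_prop) ?_))
      (by fun_prop))
    exact hv.comp' (f := fun z : (List Bool × Bool) × Inst => z.2) (by fun_prop)
  refine mem_PSPACE_of_game moves_pt win rk win_eq rk_lt hs hp
    (fun x a => d x = some a.2.1 ∧ a.2.2.2.Sublist (List.range a.2.1.1.length))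
    (m := fun x => (size (start x) + 1) * (2 * size (start x) + 1) + size (start x) + 2)
    (by fun_prop) ?_ ?_ ?_
  · intro x a ⟨h1, h2⟩
    have hb : ∀ b ∈ moves a, b.2.1 = a.2.1 ∧ b.2.2.2.Sublist a.2.2.2 := by
      intro b hb
      unfold moves at hb
      split_ifs at hb with h
      · simp only [List.mem_singleton] at hb
        subst hb
        exact ⟨rfl, List.Sublist.refl _⟩
      · simp only [List.mem_map] at hb
        obtain ⟨y, _, rfl⟩ := hb
        exact ⟨rfl, List.filter_sublist⟩
    refine ⟨?_, fun b h => ⟨by rw [(hb b h).1]; exact h1,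
      by rw [(hb b h).1]; exact (hb b h).2.trans h2⟩⟩
    have hsz : 2 * size a.2.1 + size (List.range a.2.1.1.length) + 7 ≤ size (start x) := by
      simp only [start, h1, Option.elim, size_cons, size_prod, size_bool, size_nil]
      omega
    have h3 := size_list_le (moves a) (size (start x)) fun b h => by
      have := size_sublist ((hb b h).2.trans h2)
      simp only [size_prod, size_bool, (hb b h).1] at hsz ⊢
      omega
    have h4 : (moves a).length ≤ size (start x) + 1 := by
      have a1 := h2.length_le
      have a2 := length_le_size (List.range a.2.1.1.length)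
      unfold moves
      split_ifs
      · simp
      · rw [List.length_map]
        have := List.length_filter_le (fun x => decide (a.2.1.1[x]? = some a.2.2.1 ∧
          ∀ y ∈ a.2.2.2, (x, y) ∉ a.2.1.2)) a.2.2.2
        omega
    have := Nat.mul_le_mul_right (2 * size (start x) + 1) h4
    omega
  · intro x
    refine ⟨by omega, fun a ha => ?_⟩
    cases h : d x with
    | none => simp [start, h] at ha
    | some P =>
      have hsz : size (List.range P.1.length) ≤ size (start x) := by
        simp only [start, h, Option.elim, size_cons, size_prod, size_bool, size_nil]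
        omega
      have a2 := length_le_size (List.range P.1.length)
      simp only [start, h, Option.elim, List.mem_cons, List.not_mem_nil, or_false] at ha
      rcases ha with rfl | rfl
      · exact ⟨⟨rfl, List.Sublist.refl _⟩, by simp only [rk]; split_ifs <;> omega⟩
      · exact ⟨⟨rfl, List.Sublist.refl _⟩, by simp only [rk]; split_ifs <;> omega⟩
  · intro x
    have key : ∀ P : Inst, decide ((winner P true, winner P false) = o) =
        !([(!o.1, P, true, List.range P.1.length),
          (o.2, P, false, List.range P.1.length)].any fun b => !win b) := by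
      intro P
      have w : ∀ c, win (true, P, c, List.range P.1.length) =
          !win (false, P, c, List.range P.1.length) := by
        intro c; rw [win_eq]; simp [moves]
      obtain ⟨o1, o2⟩ := o
      rw [winner_eq, winner_eq]
      cases o1 <;> cases o2 <;>
        simp only [Bool.not_true, Bool.not_false, List.any_cons, List.any_nil, w] <;>
        cases win (false, P, true, List.range P.1.length) <;>
        cases win (false, P, false, List.range P.1.length) <;> rfl
    rw [Bool.eq_iff_iff]
    simp only [outcomeLang, decide_eq_true_eq]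
    constructor
    · rintro ⟨P, rfl, h1, h2, h3⟩
      have e : d (N487b59b3.bitEncode P) = some P := he P
      simp only [post, start, e, Option.elim, ← key P, h3]
      simp [h1, h2, enc]
    · cases h : d x with
      | none => simp [post, h]
      | some P =>
        simp only [post, start, h, Option.elim, Bool.and_eq_true, decide_eq_true_eq, ← key P]
        rintro ⟨⟨h1, h2, h3⟩, h4⟩
        exact ⟨P, h1, h2, h3, h4⟩

theorem outcomeLang_congr {Q Q' : Bool × Bool → Prop} (h : ∀ u, u ≠ (true, false) → (Q u ↔ Q' u)) :
    outcomeLang Q = outcomeLang Q' := by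
  funext w
  have e : ∀ P : Inst, Q (winner P true, winner P false) ↔ Q' (winner P true, winner P false) :=
    fun P => h _ (not_first P)
  rw [Bool.eq_iff_iff]
  simp only [outcomeLang, decide_eq_true_eq, e]

theorem pomax_complete (Q : Bool × Bool → Prop) (h1 : ∃ o, o ≠ (true, false) ∧ Q o)
    (h2 : ∃ o, o ≠ (true, false) ∧ ¬ Q o) : N793a5b8e.IsCompleteFor PSPACE (outcomeLang Q) := by
  classical
  constructor
  · obtain ⟨o, v, h⟩ : ∃ (o : Bool × Bool) (v : Bool), ∀ u, u ≠ (true, false) →
        (Q u ↔ decide (u = o) = v) := by
      simp only [Prod.exists, Bool.exists_bool, Prod.forall, Bool.forall_bool] at h1 h2 ⊢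
      by_cases a : Q (false, true) <;> by_cases b : Q (false, false) <;>
        by_cases c : Q (true, true) <;> simp [a, b, c] at h1 h2 ⊢
    rw [outcomeLang_congr h]
    exact pomax_mem o v
  · intro L hL
    obtain ⟨c, hc⟩ : ∃ c : Bool, (Q (c, c) ↔ ¬ Q (false, true)) := by
      simp only [Prod.exists, Bool.exists_bool] at h1 h2 ⊢
      by_cases a : Q (false, true) <;> by_cases b : Q (false, false) <;>
        by_cases c : Q (true, true) <;> simp [a, b, c] at h1 h2 ⊢
    have fin : ∀ f : List Bool → Inst, PT f → (∀ x, IsPoset (f x) ∧ HeightLeTwo (f x) ∧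
        (L x = true ↔ Q (winner (f x) true, winner (f x) false))) →
        N793a5b8e.ManyOneReducible L (outcomeLang Q) := by
      intro f hf h
      refine ⟨fun x => enc (f x), hf.enc'.isPolyTime, fun x => ?_⟩
      have := langOf_enc (fun P : Inst => IsPoset P ∧ HeightLeTwo P ∧
        Q (winner P true, winner P false)) (f x)
      rw [Bool.eq_iff_iff, (h x).2.2]
      exact ⟨fun h' => this.mpr ⟨(h x).1, (h x).2.1, h'⟩, fun h' => (this.mp h').2.2⟩
    by_cases a : Q (false, true)
    · obtain ⟨f, hf, h⟩ := pomax_hard hL c
      refine fin f hf fun x => ⟨(h x).1, (h x).2.1, ?_⟩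
      rw [(h x).2.2]
      by_cases e : L x = true <;> simp [e, a, hc]
    · obtain ⟨f, hf, h⟩ := pomax_hard (compl_mem hL) c
      refine fin f hf fun x => ⟨(h x).1, (h x).2.1, ?_⟩
      rw [(h x).2.2]
      by_cases e : L x = true <;> simp [e, a, hc]

end Pool.Agent.MP_26a3fe_lc
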