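import Mathlib
import Pool.Agent.MP_26a3fe_lc.Game
import Pool.Agent.Lib.CxPspace.QBF

namespace Pool.Agent.MP_26a3fe_lc

open Finset Pool.Agent.Lib.CxPspace

/-- odd stages belong to White, even stages to Black -/
def owner (j : ℕ) : Bool := decide (j % 2 = 1)

/-- colours of the tops -/
def topColors (m : ℕ) : List Bool := (List.range (2 * m)).map fun y => owner (y / 2)

/-- penalty gadgets of one stage -/
def stageBots (j : ℕ) : List (Bool × List ℕ) :=
  (!owner j, [2 * j, 2 * j + 1]) ::
    if j = 0 then [] else
      [(!owner j, [2 * j]), (!owner j, [2 * j + 1]),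
       (owner j, [2 * j, 2 * (j - 1)]), (owner j, [2 * j, 2 * (j - 1) + 1]),
       (owner j, [2 * j + 1, 2 * (j - 1)]), (owner j, [2 * j + 1, 2 * (j - 1) + 1])]

/-- all gadgets -/
def gad (m : ℕ) : List (Bool × List ℕ) := (List.range m).flatMap stageBots

/-- the stage at which a variable is set -/
def stage (qs : List Bool) (v : ℕ) : ℕ := 2 * v + if qs.getD v false then 1 else 0

/-- the bottom element of a clause -/
def clauseBot (qs : List Bool) (C : List (ℕ × Bool)) : Bool × List ℕ :=
  (false, (C.filter fun l => decide (l.1 < qs.length)).map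
    fun l => 2 * stage qs l.1 + if l.2 then 0 else 1)

/-- all bottoms -/
def bots (qs : List Bool) (φ : Cnf) : List (Bool × List ℕ) :=
  ((List.range (4 * qs.length + φ.length + 1)).flatMap fun _ => gad (2 * qs.length)) ++
    φ.map (clauseBot qs)

/-- the reduction -/
def red (qs : List Bool) (φ : Cnf) : Inst := mkInst (topColors (2 * qs.length)) (bots qs φ)

theorem length_topColors (m : ℕ) : (topColors m).length = 2 * m := by simp [topColors]

theorem topColors_get {m y : ℕ} (h : y < 2 * m) : (topColors m)[y]? = some (owner (y / 2)) := by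
  simp [topColors, h]

theorem red_get {qs : List Bool} {φ : Cnf} {y : ℕ} (h : y < 2 * (2 * qs.length)) :
    (red qs φ).1[y]? = some (owner (y / 2)) := by
  simp only [red, mkInst]
  rw [List.getElem?_append_left (by rw [length_topColors]; exact h), topColors_get h]

theorem stage_lt {qs : List Bool} {v : ℕ} (h : v < qs.length) : stage qs v < 2 * qs.length := by
  unfold stage; split_ifs <;> omega

theorem bots_lt (qs : List Bool) (φ : Cnf) :
    ∀ b ∈ bots qs φ, ∀ y ∈ b.2, y < (topColors (2 * qs.length)).length := by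
  intro b hb y hy
  rw [length_topColors]
  simp only [bots, gad, List.mem_append, List.mem_flatMap, List.mem_range, List.mem_map] at hb
  rcases hb with ⟨_, _, j, hj, hb⟩ | ⟨C, _, rfl⟩
  · unfold stageBots at hb
    split_ifs at hb with h0
    · simp only [List.mem_cons, List.not_mem_nil, or_false] at hb
      subst hb
      simp only [List.mem_cons, List.not_mem_nil, or_false] at hy
      omega
    · simp only [List.mem_cons, List.not_mem_nil, or_false] at hb
      rcases hb with rfl | rfl | rfl | rfl | rfl | rfl | rfl <;>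
        simp only [List.mem_cons, List.not_mem_nil, or_false] at hy <;> omega
  · simp only [clauseBot, List.mem_map, List.mem_filter, decide_eq_true_eq] at hy
    obtain ⟨l, ⟨_, h1⟩, rfl⟩ := hy
    have := stage_lt h1
    split_ifs <;> omega

theorem red_valid (qs : List Bool) (φ : Cnf) : IsPoset (red qs φ) ∧ HeightLeTwo (red qs φ) :=
  mkInst_valid (bots_lt qs φ)

/-- number of removed tops of a stage -/
def ecnt (R : Finset ℕ) (j : ℕ) : ℤ :=
  (if 2 * j ∈ R then 1 else 0) + (if 2 * j + 1 ∈ R then 1 else 0)

/-- penalty of a stage -/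
def pen (R : Finset ℕ) (j : ℕ) : ℤ :=
  (if 2 * j ∈ R ∧ 2 * j + 1 ∈ R then 1 else 0) +
    if j = 0 then 0 else ecnt R j * (1 - ecnt R (j - 1))

/-- sign of a stage -/
def sg (c : Bool) (j : ℕ) : ℤ := if owner j = c then 1 else -1

theorem wsum_stageBots (c : Bool) (R : Finset ℕ) (j : ℕ) :
    wsum c R (stageBots j) = -(sg c j * pen R j) := by
  unfold stageBots wsum sg pen ecnt
  by_cases h0 : j = 0
  · subst h0
    by_cases h1 : 0 ∈ R <;> by_cases h2 : 1 ∈ R <;> cases c <;> simp [owner, h1, h2]
  · by_cases h1 : 2 * j ∈ R <;> by_cases h2 : 2 * j + 1 ∈ R <;> by_cases h3 : 2 * (j - 1) ∈ R <;>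
      by_cases h4 : 2 * (j - 1) + 1 ∈ R <;> cases c <;> cases owner j <;>
      simp [h0, h1, h2, h3, h4]

theorem lin_eq (c : Bool) (m : ℕ) (R : Finset ℕ) (hR : R ⊆ range (2 * m)) :
    ∑ z ∈ R, (if (topColors m)[z]? = some c then (1 : ℤ) else -1) =
      ∑ j ∈ range m, sg c j * ecnt R j := by
  have e1 : ∑ z ∈ R, (if (topColors m)[z]? = some c then (1 : ℤ) else -1) =
      ∑ z ∈ range (2 * m), if z ∈ R then sg c (z / 2) else 0 := by
    rw [← sum_filter, filter_mem_eq_inter, inter_eq_right.mpr hR]
    refine sum_congr rfl fun z hz => ?_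
    rw [topColors_get (mem_range.mp (hR hz))]
    simp [sg]
  rw [e1]
  clear e1 hR
  induction m with
  | zero => simp
  | succ m ih =>
    rw [show 2 * (m + 1) = 2 * m + 1 + 1 by ring, sum_range_succ, sum_range_succ, ih,
      sum_range_succ, add_assoc]
    congr 1
    have a1 : 2 * m / 2 = m := by omega
    have a2 : (2 * m + 1) / 2 = m := by omega
    rw [a1, a2, ecnt]
    split_ifs <;> ring

theorem pot_red (qs : List Bool) (φ : Cnf) (c : Bool) (R : Finset ℕ)
    (hR : R ⊆ range (2 * (2 * qs.length))) :
    pot (red qs φ) (2 * (2 * qs.length)) c R =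
      ∑ j ∈ range (2 * qs.length), sg c j * ecnt R j
      - (4 * qs.length + φ.length + 1 : ℕ) * ∑ j ∈ range (2 * qs.length), sg c j * pen R j
      + wsum c R (φ.map (clauseBot qs)) := by
  have := pot_mkInst (topColors (2 * qs.length)) (bots qs φ) c R
    (by rw [length_topColors]; exact hR)
  rw [length_topColors] at this
  rw [red, this, lin_eq c _ R hR, bots, wsum_append, wsum_flatMap, gad, wsum_flatMap]
  simp only [wsum_stageBots, List.map_const', List.length_range, List.sum_replicate,
    nsmul_eq_mul]
  have e : ∀ (f : ℕ → ℤ) (n : ℕ), ((List.range n).map f).sum = ∑ j ∈ range n, f j := by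
    intro f n
    induction n with
    | zero => simp
    | succ n ih => rw [List.range_succ, List.map_append, List.sum_append, ih, sum_range_succ]; simp
  rw [e, sum_neg_distrib]
  ring

theorem wsum_cl_white (qs : List Bool) (φ : Cnf) (R : Finset ℕ) :
    -(φ.length : ℤ) ≤ wsum true R (φ.map (clauseBot qs)) := by
  induction φ with
  | nil => simp [wsum]
  | cons C φ ih =>
    simp only [wsum, List.map_cons, List.sum_cons, List.length_cons] at ih ⊢
    push_cast
    split_ifs <;> linarith

theorem wsum_cl_black (qs : List Bool) (φ : Cnf) (R : Finset ℕ) :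
    0 ≤ wsum false R (φ.map (clauseBot qs)) := by
  induction φ with
  | nil => simp [wsum]
  | cons C φ ih =>
    simp only [wsum, List.map_cons, List.sum_cons] at ih ⊢
    have : (clauseBot qs C).1 = false := rfl
    rw [if_pos this]
    split_ifs <;> linarith

theorem wsum_cl_black_pos (qs : List Bool) (φ : Cnf) (R : Finset ℕ) (C : List (ℕ × Bool))
    (hC : C ∈ φ) (h : ∀ y ∈ (clauseBot qs C).2, y ∈ R) :
    1 ≤ wsum false R (φ.map (clauseBot qs)) := by
  induction φ with
  | nil => simp at hC
  | cons D φ ih =>
    have h0 := wsum_cl_black qs φ R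
    simp only [wsum, List.map_cons, List.sum_cons] at ih h0 ⊢
    have : (clauseBot qs D).1 = false := rfl
    rw [if_pos this]
    rcases List.mem_cons.mp hC with rfl | hC
    · rw [if_pos h]; linarith
    · have := ih hC
      split_ifs <;> linarith

theorem wsum_cl_zero (c : Bool) (qs : List Bool) (φ : Cnf) (R : Finset ℕ)
    (h : ∀ C ∈ φ, ¬ ∀ y ∈ (clauseBot qs C).2, y ∈ R) :
    wsum c R (φ.map (clauseBot qs)) = 0 := by
  induction φ with
  | nil => simp [wsum]
  | cons D φ ih =>
    have := ih fun C hC => h C (List.mem_cons_of_mem _ hC)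
    simp only [wsum, List.map_cons, List.sum_cons] at this ⊢
    rw [if_neg (h D List.mem_cons_self), this, add_zero]

/-- player `c` has respected the rules -/
def Clean (c : Bool) (R : Finset ℕ) : Prop :=
  ∀ j, owner j = c → ¬ (2 * j ∈ R ∧ 2 * j + 1 ∈ R) ∧
    (j ≠ 0 → (2 * j ∈ R ∨ 2 * j + 1 ∈ R) → (2 * (j - 1) ∈ R ∨ 2 * (j - 1) + 1 ∈ R))

/-- the opponent of `c` has broken the rules -/
def Viol (m : ℕ) (c : Bool) (R : Finset ℕ) : Prop :=
  Clean c R ∧ ∃ j < m, owner j = !c ∧ ((2 * j ∈ R ∧ 2 * j + 1 ∈ R) ∨
    (j ≠ 0 ∧ (2 * j ∈ R ∨ 2 * j + 1 ∈ R) ∧ 2 * (j - 1) ∉ R ∧ 2 * (j - 1) + 1 ∉ R))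

theorem owner_pred {j : ℕ} (h : j ≠ 0) : owner (j - 1) = !owner j := by
  unfold owner
  rcases Nat.mod_two_eq_zero_or_one j with h1 | h1
  · have : (j - 1) % 2 = 1 := by omega
    simp [h1, this]
  · have : (j - 1) % 2 = 0 := by omega
    simp [h1, this]

theorem clean_insert {c : Bool} {R : Finset ℕ} {y : ℕ} (h : Clean c R)
    (hy : owner (y / 2) = !c) : Clean c (insert y R) := by
  intro j hj
  have n1 : 2 * j ≠ y := by
    rintro rfl
    rw [show 2 * j / 2 = j by omega, hj] at hy
    cases c <;> simp at hy
  have n2 : 2 * j + 1 ≠ y := by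
    rintro rfl
    rw [show (2 * j + 1) / 2 = j by omega, hj] at hy
    cases c <;> simp at hy
  simp only [mem_insert, n1, n2, false_or]
  refine ⟨(h j hj).1, fun a b => ?_⟩
  rcases (h j hj).2 a b with h3 | h3
  · exact Or.inl (Or.inr h3)
  · exact Or.inr (Or.inr h3)

theorem viol_insert {m : ℕ} {c : Bool} {R : Finset ℕ} {y : ℕ} (h : Viol m c R)
    (hy : owner (y / 2) = !c) : Viol m c (insert y R) := by
  refine ⟨clean_insert h.1 hy, ?_⟩
  obtain ⟨j, hj, ho, h2⟩ := h.2
  refine ⟨j, hj, ho, ?_⟩
  rcases h2 with ⟨a, b⟩ | ⟨a, b, d, e⟩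
  · exact Or.inl ⟨mem_insert_of_mem a, mem_insert_of_mem b⟩
  · have ho' : owner (j - 1) = c := by rw [owner_pred a, ho]; simp
    refine Or.inr ⟨a, b.imp mem_insert_of_mem mem_insert_of_mem, ?_, ?_⟩
    · simp only [mem_insert, d, or_false]
      rintro rfl
      rw [show 2 * (j - 1) / 2 = j - 1 by omega, ho'] at hy
      cases c <;> simp at hy
    · simp only [mem_insert, e, or_false]
      rintro rfl
      rw [show (2 * (j - 1) + 1) / 2 = j - 1 by omega, ho'] at hy
      cases c <;> simp at hy

theorem clean_term {c : Bool} {R : Finset ℕ} (h : Clean c R) (j : ℕ) : sg c j * pen R j ≤ 0 := by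
  unfold sg pen ecnt
  by_cases hj : owner j = c
  · obtain ⟨a, b⟩ := h j hj
    by_cases h0 : j = 0
    · rw [if_neg a, if_pos h0]; simp
    · have b' := b h0
      by_cases h1 : 2 * j ∈ R <;> by_cases h2 : 2 * j + 1 ∈ R <;> by_cases h3 : 2 * (j - 1) ∈ R <;>
        by_cases h4 : 2 * (j - 1) + 1 ∈ R <;> simp_all
  · by_cases h0 : j = 0
    · rw [if_neg hj, if_pos h0]
      split_ifs <;> simp
    · have ho : owner (j - 1) = c := by
        rw [owner_pred h0]; cases c <;> simpa using hj
      have a := (h _ ho).1
      by_cases h1 : 2 * j ∈ R <;> by_cases h2 : 2 * j + 1 ∈ R <;> by_cases h3 : 2 * (j - 1) ∈ R <;>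
        by_cases h4 : 2 * (j - 1) + 1 ∈ R <;> simp_all

theorem viol_sum {m : ℕ} {c : Bool} {R : Finset ℕ} (h : Viol m c R) :
    ∑ j ∈ range m, sg c j * pen R j ≤ -1 := by
  obtain ⟨j, hj, ho, h2⟩ := h.2
  have hne : ¬ owner j = c := by rw [ho]; cases c <;> simp
  have h1 : sg c j * pen R j ≤ -1 := by
    unfold sg pen ecnt
    by_cases h0 : j = 0
    · rcases h2 with h2 | h2
      · rw [if_neg hne, if_pos h2, if_pos h0]; norm_num
      · exact absurd h0 h2.1
    · have ho' : owner (j - 1) = c := by rw [owner_pred h0, ho]; simp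
      have a := (h.1 _ ho').1
      by_cases h1 : 2 * j ∈ R <;> by_cases h2 : 2 * j + 1 ∈ R <;> by_cases h3 : 2 * (j - 1) ∈ R <;>
        by_cases h4 : 2 * (j - 1) + 1 ∈ R <;> simp_all
  rw [← add_sum_erase _ _ (mem_range.mpr hj)]
  have := sum_nonpos (s := (range m).erase j) fun i _ => clean_term h.1 i
  linarith

theorem lin_ge (m : ℕ) (c : Bool) (R : Finset ℕ) :
    -(2 * m : ℤ) ≤ ∑ j ∈ range m, sg c j * ecnt R j := by
  induction m with
  | zero => simp
  | succ m ih =>
    rw [sum_range_succ]
    have : -2 ≤ sg c m * ecnt R m := by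
      unfold sg ecnt; split_ifs <;> norm_num
    push_cast
    linarith

theorem viol_pot {qs : List Bool} {φ : Cnf} {c : Bool} {R : Finset ℕ}
    (hR : R ⊆ range (2 * (2 * qs.length))) (h : Viol (2 * qs.length) c R) :
    0 < pot (red qs φ) (2 * (2 * qs.length)) c R := by
  rw [pot_red qs φ c R hR]
  have a := viol_sum h
  have b := lin_ge (2 * qs.length) c R
  have d : -(φ.length : ℤ) ≤ wsum c R (φ.map (clauseBot qs)) := by
    cases c
    · exact le_trans (by simp) (wsum_cl_black qs φ R)
    · exact wsum_cl_white qs φ R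
  push_cast at b ⊢
  nlinarith

/-- `R` is the set of tops removed after the legal play `p` -/
def IsPre (p : List Bool) (R : Finset ℕ) : Prop :=
  ∀ y, y ∈ R ↔ p[y / 2]? = some (decide (y % 2 = 1))

theorem pre_mem {p : List Bool} {R : Finset ℕ} (h : IsPre p R) (j : ℕ) :
    (2 * j ∈ R ↔ p[j]? = some false) ∧ (2 * j + 1 ∈ R ↔ p[j]? = some true) := by
  rw [h, h, show 2 * j / 2 = j by omega, show (2 * j + 1) / 2 = j by omega]
  simp

theorem pre_cases {p : List Bool} {R : Finset ℕ} (h : IsPre p R) (j : ℕ) :
    (j < p.length ∧ ((2 * j ∈ R ∧ 2 * j + 1 ∉ R) ∨ (2 * j ∉ R ∧ 2 * j + 1 ∈ R))) ∨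
      (p.length ≤ j ∧ 2 * j ∉ R ∧ 2 * j + 1 ∉ R) := by
  rw [(pre_mem h j).1, (pre_mem h j).2]
  by_cases hj : j < p.length
  · left
    refine ⟨hj, ?_⟩
    rw [List.getElem?_eq_getElem hj]
    cases p[j] <;> simp
  · right
    have hj' : p.length ≤ j := by omega
    simp [hj']

theorem pre_ecnt {p : List Bool} {R : Finset ℕ} (h : IsPre p R) (j : ℕ) :
    ecnt R j = if j < p.length then 1 else 0 := by
  unfold ecnt
  rcases pre_cases h j with ⟨a, ⟨b, d⟩ | ⟨b, d⟩⟩ | ⟨a, b, d⟩
  · simp [a, b, d]
  · simp [a, b, d]
  · simp [not_lt.mpr a, b, d]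

theorem pre_pen {p : List Bool} {R : Finset ℕ} (h : IsPre p R) (j : ℕ) : pen R j = 0 := by
  unfold pen
  rw [pre_ecnt h, pre_ecnt h]
  have : ¬ (2 * j ∈ R ∧ 2 * j + 1 ∈ R) := by
    rcases pre_cases h j with ⟨a, ⟨b, d⟩ | ⟨b, d⟩⟩ | ⟨a, b, d⟩ <;> simp [b, d]
  rw [if_neg this]
  split_ifs <;> omega

theorem pre_clean {p : List Bool} {R : Finset ℕ} (h : IsPre p R) (c : Bool) : Clean c R := by
  intro j _
  constructor
  · rcases pre_cases h j with ⟨a, ⟨b, d⟩ | ⟨b, d⟩⟩ | ⟨a, b, d⟩ <;> simp [b, d]
  · intro h0 h1
    rcases pre_cases h j with ⟨a, _⟩ | ⟨a, b, d⟩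
    · rcases pre_cases h (j - 1) with ⟨_, ⟨b, d⟩ | ⟨b, d⟩⟩ | ⟨a', _⟩
      · exact Or.inl b
      · exact Or.inr d
      · omega
    · simp [b, d] at h1

theorem pre_step {p : List Bool} {R : Finset ℕ} (h : IsPre p R) {y : ℕ} (hy : y / 2 = p.length) :
    IsPre (p ++ [decide (y % 2 = 1)]) (insert y R) := by
  intro z
  rw [mem_insert, h]
  rcases lt_trichotomy (z / 2) p.length with h1 | h1 | h1
  · rw [List.getElem?_append_left h1]
    have : z ≠ y := by rintro rfl; omega
    simp [this]
  · rw [h1]
    simp only [le_refl, List.getElem?_eq_none, reduceCtorEq, or_false, List.getElem?_concat_length,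
      Option.some.injEq, decide_eq_decide]
    omega
  · rw [List.getElem?_eq_none (by omega), List.getElem?_eq_none (by simp; omega)]
    have : z ≠ y := by rintro rfl; omega
    simp [this]

theorem pre_insert {m : ℕ} {c : Bool} {p : List Bool} {R : Finset ℕ} (h : IsPre p R) {y : ℕ}
    (hy : y < 2 * m) (hyR : y ∉ R) (ho : owner (y / 2) = !c) :
    y / 2 = p.length ∨ Viol m c (insert y R) := by
  by_cases h1 : y / 2 = p.length
  · exact Or.inl h1
  right
  refine ⟨clean_insert (pre_clean h c) ho, y / 2, by omega, ho, ?_⟩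
  have hy2 : y = 2 * (y / 2) ∨ y = 2 * (y / 2) + 1 := by omega
  simp only [mem_insert]
  rcases pre_cases h (y / 2) with ⟨a, ⟨b, d⟩ | ⟨b, d⟩⟩ | ⟨a, b, d⟩
  · left
    rcases hy2 with e | e
    · exact absurd (e ▸ b) hyR
    · exact ⟨Or.inr b, Or.inl e.symm⟩
  · left
    rcases hy2 with e | e
    · exact ⟨Or.inl e.symm, Or.inr d⟩
    · exact absurd (e ▸ d) hyR
  · right
    rcases pre_cases h (y / 2 - 1) with ⟨a', _⟩ | ⟨_, b', d'⟩
    · omega
    · refine ⟨by omega, ?_, ?_, ?_⟩
      · rcases hy2 with e | e
        · exact Or.inl (Or.inl e.symm)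
        · exact Or.inr (Or.inl e.symm)
      · simp only [b', or_false]; omega
      · simp only [d', or_false]; omega

theorem pre_lin {m : ℕ} (c : Bool) {p : List Bool} {R : Finset ℕ} (h : IsPre p R)
    (hp : p.length ≤ m) : ∑ j ∈ range m, sg c j * ecnt R j =
      if p.length % 2 = 0 then 0 else if c then -1 else 1 := by
  simp only [pre_ecnt h, mul_ite, mul_one, mul_zero]
  rw [← sum_filter]
  have : (range m).filter (fun j => j < p.length) = range p.length := by
    ext j; simp only [mem_filter, mem_range]; omega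
  rw [this]
  generalize p.length = k
  induction k with
  | zero => simp
  | succ k ih =>
    rw [sum_range_succ, ih]
    unfold sg owner
    rcases Nat.mod_two_eq_zero_or_one k with h1 | h1
    · have : (k + 1) % 2 = 1 := by omega
      cases c <;> simp [h1, this]
    · have : (k + 1) % 2 = 0 := by omega
      cases c <;> simp [h1, this]

theorem pre_pot {qs : List Bool} {φ : Cnf} (c : Bool) {p : List Bool} {R : Finset ℕ}
    (h : IsPre p R) (hp : p.length ≤ 2 * qs.length) (hR : R ⊆ range (2 * (2 * qs.length))) :
    pot (red qs φ) (2 * (2 * qs.length)) c R =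
      (if p.length % 2 = 0 then 0 else if c then -1 else 1) + wsum c R (φ.map (clauseBot qs)) := by
  rw [pot_red qs φ c R hR, pre_lin c h hp]
  simp [pre_pen h]

/-- the final condition of the stage game -/
def ev (qs : List Bool) (φ : Cnf) (p : List Bool) : Prop :=
  ∀ C ∈ φ, ∃ l ∈ C, l.1 < qs.length ∧ p[stage qs l.1]? = some l.2

/-- the alternating stage game -/
def alt (E : List Bool → Prop) : ℕ → List Bool → Prop
  | 0, p => E p
  | r + 1, p => if p.length % 2 = 0 then ∀ b, alt E r (p ++ [b]) else ∃ b, alt E r (p ++ [b])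

theorem alt_exists {E : List Bool → Prop} : ∀ (r : ℕ) (p : List Bool), alt E r p →
    ∃ s, E (p ++ s) := by
  intro r
  induction r with
  | zero => intro p h; exact ⟨[], by simpa [alt] using h⟩
  | succ r ih =>
    intro p h
    unfold alt at h
    have : ∃ b, alt E r (p ++ [b]) := by
      split_ifs at h
      · exact ⟨true, h true⟩
      · exact h
    obtain ⟨b, hb⟩ := this
    obtain ⟨s, hs⟩ := ih _ hb
    exact ⟨b :: s, by simpa using hs⟩

theorem released_iff {qs : List Bool} {p : List Bool} {R : Finset ℕ} (h : IsPre p R)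
    (C : List (ℕ × Bool)) : (∀ y ∈ (clauseBot qs C).2, y ∈ R) ↔
      ∀ l ∈ C, l.1 < qs.length → p[stage qs l.1]? = some (!l.2) := by
  simp only [clauseBot, List.mem_map, List.mem_filter, decide_eq_true_eq, forall_exists_index,
    and_imp]
  constructor
  · intro H l hl h1
    have := H _ l hl h1 rfl
    cases hb : l.2
    · simpa [hb, (pre_mem h _).2] using this
    · simpa [hb, (pre_mem h _).1] using this
  · rintro H _ l hl h1 rfl
    have := H l hl h1
    cases hb : l.2
    · simpa [hb, (pre_mem h _).2] using this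
    · simpa [hb, (pre_mem h _).1] using this

theorem qbf_alt (φ : Cnf) (qs : List Bool) : ∀ (r q₀ a p : List Bool), qs = q₀ ++ r →
    a.length = q₀.length → p.length = 2 * q₀.length →
    (∀ v < q₀.length, p[stage qs v]? = a[v]?) →
    (QbfTrue φ r a ↔ alt (ev qs φ) (2 * r.length) p) := by
  intro r
  induction r with
  | nil =>
    intro q₀ a p h1 h2 h3 h4
    simp only [List.append_nil] at h1
    subst h1
    simp only [QbfTrue, CnfSat, List.length_nil, mul_zero, alt, ev]
    refine forall₂_congr fun C _ => exists_congr fun l => and_congr_right fun _ => ?_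
    constructor
    · intro h
      have : l.1 < qs.length := by
        rw [← h2]; exact (List.getElem?_eq_some_iff.mp h).1
      exact ⟨this, by rw [h4 _ this]; exact h⟩
    · rintro ⟨h5, h6⟩
      rw [← h4 _ h5]; exact h6
  | cons q r ih =>
    intro q₀ a p h1 h2 h3 h4
    have key : ∀ b₁ b₂ : Bool, QbfTrue φ r (a ++ [if q then b₂ else b₁]) ↔
        alt (ev qs φ) (2 * r.length) (p ++ [b₁] ++ [b₂]) := by
      intro b₁ b₂
      refine ih (q₀ ++ [q]) _ _ (by simp [h1]) (by simp [h2]) (by simp [h3]; ring) ?_
      intro v hv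
      simp only [List.length_append, List.length_singleton] at hv
      by_cases hv' : v < q₀.length
      · have : stage qs v < p.length := by unfold stage; split_ifs <;> omega
        rw [List.append_assoc, List.getElem?_append_left this,
          List.getElem?_append_left (by omega), h4 v hv']
      · have hv2 : v = q₀.length := by omega
        subst hv2
        have e : qs.getD q₀.length false = q := by simp [h1]
        rw [stage, e, ← h3, ← h2, List.getElem?_concat_length]
        cases q
        · simp
        · simp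
    have e2 : 2 * (q :: r).length = 2 * r.length + 1 + 1 := by simp; ring
    rw [e2]
    unfold alt
    rw [if_pos (by omega)]
    unfold alt
    have e3 : ∀ b : Bool, ¬ (p ++ [b]).length % 2 = 0 := by intro b; simp; omega
    simp only [e3, if_false, ← key]
    cases q <;> simp [QbfTrue]

theorem red_black (qs : List Bool) (φ : Cnf) :
    WinsSecond (red qs φ) false (range (red qs φ).1.length) := by
  have hnt : 2 * (2 * qs.length) ≤ (red qs φ).1.length := by
    rw [red, length_mkInst, length_topColors]; omega
  have hP : ∀ a ∈ (red qs φ).2, 2 * (2 * qs.length) ≤ a.1 ∧ a.2 < 2 * (2 * qs.length) := by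
    have := mkInst_two (bots_lt qs φ)
    rwa [length_topColors] at this
  have pre0 : IsPre [] ∅ := by intro y; simp
  have col : ∀ {y : ℕ} {c : Bool}, y < 2 * (2 * qs.length) → (red qs φ).1[y]? = some c →
      owner (y / 2) = c := by
    intro y c h1 h2
    rw [red_get h1] at h2
    simpa using h2
  refine wins_second_of hnt hP (c := false)
    (W := fun R => R = ∅ ∨ Viol (2 * qs.length) false R) ?_ ?_ (Or.inl rfl)
  · rintro R y (rfl | h) hy hyR hc
    · have ho := col hy hc
      rcases pre_insert (c := false) pre0 hy hyR ho with h | h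
      · rw [h] at ho; simp [owner] at ho
      · exact Or.inr h
    · exact Or.inr (viol_insert h (col hy hc))
  · rintro R (rfl | h) hR hpot
    · rw [pre_pot false pre0 (by simp) hR] at hpot
      have := wsum_cl_black qs φ ∅
      simp at hpot
      omega
    · have := viol_pot (φ := φ) hR h
      omega

theorem red_correct (qs : List Bool) (φ : Cnf) : QbfTrue φ qs [] ↔ PomaxZero (red qs φ) := by
  rw [qbf_alt φ qs qs [] [] [] rfl rfl rfl (by simp)]
  have hnt : 2 * (2 * qs.length) ≤ (red qs φ).1.length := by
    rw [red, length_mkInst, length_topColors]; omega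
  have hP : ∀ a ∈ (red qs φ).2, 2 * (2 * qs.length) ≤ a.1 ∧ a.2 < 2 * (2 * qs.length) := by
    have := mkInst_two (bots_lt qs φ)
    rwa [length_topColors] at this
  have pre0 : IsPre [] ∅ := by intro y; simp
  have col : ∀ {y : ℕ} {c : Bool}, y < 2 * (2 * qs.length) → (red qs φ).1[y]? = some c →
      owner (y / 2) = c := by
    intro y c h1 h2
    rw [red_get h1] at h2
    simpa using h2
  have notmem : ∀ {p : List Bool} {R : Finset ℕ} {y : ℕ}, IsPre p R → y / 2 = p.length → y ∉ R := by
    intro p R y h1 h2
    rw [h1, h2]; simp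
  have par : ∀ (k : ℕ) (b : Bool), decide ((2 * k + if b then 1 else 0) % 2 = 1) = b := by
    intro k b; cases b <;> simp
  have half : ∀ (k : ℕ) (b : Bool), (2 * k + if b then 1 else 0) / 2 = k := by
    intro k b; cases b <;> simp; omega
  constructor
  · intro H
    constructor
    · -- White wins moving second
      refine wins_second_of hnt hP (c := true)
        (W := fun R => (∃ p r, IsPre p R ∧ p.length + r = 2 * qs.length ∧ alt (ev qs φ) r p) ∨
          Viol (2 * qs.length) true R) ?_ ?_ (Or.inl ⟨[], _, pre0, by simp, H⟩)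
      · rintro R y (⟨p, r, a1, a2, a3⟩ | h) hy hyR hc
        · have ho := col hy hc
          rcases pre_insert (c := true) a1 hy hyR ho with h | h
          · left
            obtain ⟨r, rfl⟩ : ∃ r', r = r' + 1 := ⟨r - 1, by omega⟩
            have : p.length % 2 = 0 := by
              rw [h] at ho; simp [owner] at ho; omega
            rw [alt, if_pos this] at a3
            exact ⟨_, r, pre_step a1 h, by simp; omega, a3 _⟩
          · exact Or.inr h
        · exact Or.inr (viol_insert h (col hy hc))
      · rintro R (⟨p, r, a1, a2, a3⟩ | h) hR hpot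
        · rw [pre_pot true a1 (by omega) hR] at hpot
          have h0 : wsum true R (φ.map (clauseBot qs)) = 0 := by
            apply wsum_cl_zero
            intro C hC hrel
            rw [released_iff a1] at hrel
            obtain ⟨s, hs⟩ := alt_exists _ _ a3
            obtain ⟨l, l1, l2, l3⟩ := hs C hC
            have := hrel l l1 l2
            rw [List.getElem?_append_left (List.getElem?_eq_some_iff.mp this).1, this] at l3
            simp at l3
          have hodd : ¬ p.length % 2 = 0 := by
            intro h; rw [if_pos h, h0] at hpot; omega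
          obtain ⟨r, rfl⟩ : ∃ r', r = r' + 1 := ⟨r - 1, by omega⟩
          rw [alt, if_neg hodd] at a3
          obtain ⟨b, hb⟩ := a3
          have hlt : (2 * p.length + if b then 1 else 0) < 2 * (2 * qs.length) := by
            split_ifs <;> omega
          refine ⟨2 * p.length + if b then 1 else 0, hlt, notmem a1 (half _ _), ?_,
            Or.inl ⟨_, r, pre_step a1 (half _ _), by simp; omega, by rw [par]; exact hb⟩⟩
          rw [red_get hlt, half]
          simp [owner]; omega
        · have := viol_pot (φ := φ) hR h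
          omega
    · exact red_black qs φ
  · intro H
    by_contra hcon
    refine wins_first_of hnt hP (c := false)
      (W := fun R => (∃ p r, IsPre p R ∧ p.length + r = 2 * qs.length ∧ ¬ alt (ev qs φ) r p) ∨
          Viol (2 * qs.length) false R) ?_ ?_ (Or.inl ⟨[], _, pre0, by simp, hcon⟩) H.1
    · rintro R y (⟨p, r, a1, a2, a3⟩ | h) hy hyR hc
      · have ho := col hy hc
        rcases pre_insert (c := false) a1 hy hyR ho with h | h
        · left
          obtain ⟨r, rfl⟩ : ∃ r', r = r' + 1 := ⟨r - 1, by omega⟩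
          have : ¬ p.length % 2 = 0 := by
            rw [h] at ho; simp [owner] at ho; omega
          rw [alt, if_neg this] at a3
          exact ⟨_, r, pre_step a1 h, by simp; omega, fun h => a3 ⟨_, h⟩⟩
        · exact Or.inr h
      · exact Or.inr (viol_insert h (col hy hc))
    · rintro R (⟨p, r, a1, a2, a3⟩ | h) hR hpot
      · rw [pre_pot false a1 (by omega) hR] at hpot
        have h0 := wsum_cl_black qs φ R
        have heven : p.length % 2 = 0 := by
          by_contra h; rw [if_neg h] at hpot; simp at hpot; omega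
        rw [if_pos heven] at hpot
        cases r with
        | zero =>
          exfalso
          apply a3
          intro C hC
          by_contra hC'
          push Not at hC'
          have : ∀ y ∈ (clauseBot qs C).2, y ∈ R := by
            rw [released_iff a1]
            intro l l1 l2
            have l3 := hC' l l1 l2
            have l4 : stage qs l.1 < p.length := by have := stage_lt l2; omega
            rw [List.getElem?_eq_getElem l4] at l3 ⊢
            revert l3
            cases p[stage qs l.1] <;> cases l.2 <;> simp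
          have := wsum_cl_black_pos qs φ R C hC this
          omega
        | succ r =>
          rw [alt, if_pos heven] at a3
          push Not at a3
          obtain ⟨b, hb⟩ := a3
          have hlt : (2 * p.length + if b then 1 else 0) < 2 * (2 * qs.length) := by
            split_ifs <;> omega
          refine ⟨2 * p.length + if b then 1 else 0, hlt, notmem a1 (half _ _), ?_,
            Or.inl ⟨_, r, pre_step a1 (half _ _), by simp; omega, by rw [par]; exact hb⟩⟩
          rw [red_get hlt, half]
          simp [owner]; omega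
      · have := viol_pot (φ := φ) hR h
        omega

end Pool.Agent.MP_26a3fe_lc
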